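import Pool.Agent.Helper75.CR.St

set_option autoImplicit false

namespace Pool.Agent.Helper76.CR

open Pool.Agent.Helper75.CR Helper1.IM

/-- words of content `C` -/
def TT (B : Type) (C : Finset ℕ) : Type := {x : Wo B // cn x = C}

instance (B : Type) (C : Finset ℕ) : Semigroup (TT B C) where
  mul x y := ⟨x.1 ++ y.1, by rw [cn_append, x.2, y.2, Finset.union_self]⟩
  mul_assoc x y z := Subtype.ext (List.append_assoc _ _ _)

theorem mul_val {B : Type} {C : Finset ℕ} (x y : TT B C) : (x * y).1 = x.1 ++ y.1 := rfl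

/-- the congruence on `TT B C` -/
def cT {B : Type} {S : Sgn B} (ρ : Pg S) (C : Finset ℕ) : Con (TT B C) where
  r x y := ρ.r x.1 y.1
  iseqv := ⟨fun _ => ρ.refl' _, fun h => ρ.symm' h, fun h h' => ρ.trans' h h'⟩
  mul' h h' := ρ.mul2 h h'

theorem cT_def {B : Type} {S : Sgn B} (ρ : Pg S) (C : Finset ℕ) (x y : TT B C) :
    cT ρ C x y ↔ ρ.r x.1 y.1 := Iff.rfl

theorem reg {B : Type} {S : Sgn B} {θ : Pg S} (hθ : Bs S θ) {a : Wo B} (ha : a ≠ []) :
    ∃ s1 s2, θ.r a (a ++ a ++ s1) ∧ θ.r a (s2 ++ a ++ a) ∧ θ.r a (a ++ s1 ++ a) ∧ cn s1 ⊆ cn a ∧ cn s2 ⊆ cn a := by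
  obtain ⟨s1, h1⟩ := hθ.h1 a a ha subset_rfl
  obtain ⟨s2, h2⟩ := hθ.h1' a a ha subset_rfl
  have h3 : θ.r (s2 ++ a) (a ++ s1) := by
    refine θ.trans' (θ.mulL s2 h1) (θ.symm' ?_)
    have := θ.mulR s1 h2
    simpa only [List.append_assoc] using this
  have h4 : θ.r a (a ++ s1 ++ a) := by
    refine θ.trans' h2 ?_
    exact θ.mulR a h3
  refine ⟨s1, s2, h1, h2, h4, ?_, ?_⟩
  · have := hθ.cp _ _ h1
    rw [cn_append, cn_append] at this
    rw [this]
    exact Finset.subset_union_right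
  · have := hθ.cp _ _ h2
    rw [cn_append, cn_append] at this
    rw [this]
    exact Finset.subset_union_left.trans Finset.subset_union_left

section
variable {B : Type} {S : Sgn B} {θ : Pg S} {C : Finset ℕ}

theorem tne (hC : C.Nonempty) (x : TT B C) : x.1 ≠ [] := by
  intro h
  have h2 := x.2
  rw [h, cn_nil] at h2
  rw [← h2] at hC
  exact Finset.not_nonempty_empty hC

theorem hyp1 (hθ : Bs S θ) (hC : C.Nonempty) (a b : TT B C) : ∃ u, cT θ C a (a * b * u * a) := by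
  have hne := tne hC a
  obtain ⟨s1, s2, h1, h2, h3, h4, h5⟩ := reg hθ hne
  obtain ⟨s, hs⟩ := hθ.h1 a.1 (b.1 ++ a.1) hne (by rw [cn_append, a.2, b.2, Finset.union_self])
  have hcs : cn s ⊆ C := by
    have := hθ.cp _ _ hs
    rw [cn_append, a.2] at this
    rw [this]
    exact Finset.subset_union_right
  have hcu : cn (a.1 ++ s ++ s1) = C := by
    rw [cn_append, cn_append, a.2, Finset.union_eq_left.2 hcs, Finset.union_eq_left.2]
    rw [← a.2]
    exact h4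
  refine ⟨⟨a.1 ++ s ++ s1, hcu⟩, ?_⟩
  change θ.r a.1 (a.1 ++ b.1 ++ (a.1 ++ s ++ s1) ++ a.1)
  refine θ.trans' h3 ?_
  have := θ.mulR (s1 ++ a.1) hs
  simpa only [List.append_assoc] using this

theorem hyp2 (hθ : Bs S θ) (hC : C.Nonempty) (a b : TT B C) : ∃ u, cT θ C a (a * u * b * a) := by
  have hne := tne hC a
  obtain ⟨s1, s2, h1, h2, h3, h4, h5⟩ := reg hθ hne
  obtain ⟨s, hs⟩ := hθ.h1' a.1 (a.1 ++ b.1) hne (by rw [cn_append, a.2, b.2, Finset.union_self])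
  have hcs : cn s ⊆ C := by
    have := hθ.cp _ _ hs
    rw [cn_append, cn_append, a.2] at this
    rw [this]
    exact Finset.subset_union_left.trans Finset.subset_union_left
  have hcs1 : cn s1 ⊆ C := by
    rw [← a.2]
    exact h4
  have hcu : cn (s1 ++ s ++ a.1) = C := by
    rw [cn_append, cn_append, a.2]
    exact Finset.union_eq_right.2 (Finset.union_subset hcs1 hcs)
  refine ⟨⟨s1 ++ s ++ a.1, hcu⟩, ?_⟩
  change θ.r a.1 (a.1 ++ (s1 ++ s ++ a.1) ++ b.1 ++ a.1)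
  refine θ.trans' h3 ?_
  have := θ.mulL (a.1 ++ s1) hs
  simpa only [List.append_assoc] using this

theorem rr_er (ρ : Pg S) (hC : C.Nonempty) {a w : TT B C} (h : RR (cT ρ C) a w) : Er ρ a.1 w.1 := by
  obtain ⟨⟨p, hp⟩, q, hq⟩ := h
  exact ⟨tne hC a, by rw [a.2, w.2], ⟨p.1, hp⟩, q.1, hq⟩

theorem half (hθ : Bs S θ) {ρ : Pg S} (hρ : LeP θ ρ) (hcp : CP ρ) (hC : C.Nonempty) {a w : TT B C} {p : Wo B}
    (h : ρ.r (a.1 ++ p) w.1) : ∃ P : TT B C, cT ρ C (a * P) w := by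
  obtain ⟨s1, s2, h1, h2, h3, h4, h5⟩ := reg hθ (tne hC w)
  have hcp' : cn p ⊆ C := by
    have := hcp _ _ h
    rw [cn_append, w.2] at this
    rw [← this]
    exact Finset.subset_union_right
  have hcs1 : cn s1 ⊆ C := by
    rw [← w.2]
    exact h4
  have hcu : cn (p ++ w.1 ++ s1) = C := by
    rw [cn_append, cn_append, w.2, Finset.union_eq_right.2 hcp', Finset.union_eq_left.2 hcs1]
  refine ⟨⟨p ++ w.1 ++ s1, hcu⟩, ?_⟩
  change ρ.r (a.1 ++ (p ++ w.1 ++ s1)) w.1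
  have := ρ.mulR (w.1 ++ s1) h
  refine ρ.trans' ?_ (ρ.symm' (hρ _ _ h1))
  simpa only [List.append_assoc] using this

theorem er_rr (hθ : Bs S θ) {ρ : Pg S} (hρ : LeP θ ρ) (hcp : CP ρ) (hC : C.Nonempty) {a w : TT B C}
    (h : Er ρ a.1 w.1) : RR (cT ρ C) a w := by
  obtain ⟨h0, h1, ⟨p, hp⟩, q, hq⟩ := h
  exact ⟨half hθ hρ hcp hC hp, half hθ hρ hcp hC hq⟩

theorem ll_er (ρ : Pg S) (hC : C.Nonempty) {a w : TT B C} (h : LL (cT ρ C) a w) :
    Er ρ.rev a.1.reverse w.1.reverse := by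
  obtain ⟨⟨p, hp⟩, q, hq⟩ := h
  refine ⟨by simpa using tne hC a, by rw [cn_reverse, cn_reverse, a.2, w.2], ⟨p.1.reverse, ?_⟩, q.1.reverse, ?_⟩
  · change ρ.r _ _
    rw [cT_def, mul_val] at hp
    simpa [List.reverse_append] using hp
  · change ρ.r _ _
    rw [cT_def, mul_val] at hq
    simpa [List.reverse_append] using hq

theorem half' (hθ : Bs S θ) {ρ : Pg S} (hρ : LeP θ ρ) (hcp : CP ρ) (hC : C.Nonempty) {a w : TT B C} {p : Wo B}
    (h : ρ.r (p ++ a.1) w.1) : ∃ P : TT B C, cT ρ C (P * a) w := by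
  obtain ⟨s1, s2, h1, h2, h3, h4, h5⟩ := reg hθ (tne hC w)
  have hcp' : cn p ⊆ C := by
    have := hcp _ _ h
    rw [cn_append, w.2] at this
    rw [← this]
    exact Finset.subset_union_left
  have hcs2 : cn s2 ⊆ C := by
    rw [← w.2]
    exact h5
  have hcu : cn (s2 ++ w.1 ++ p) = C := by
    rw [cn_append, cn_append, w.2, Finset.union_eq_right.2 hcs2, Finset.union_eq_left.2 hcp']
  refine ⟨⟨s2 ++ w.1 ++ p, hcu⟩, ?_⟩
  change ρ.r ((s2 ++ w.1 ++ p) ++ a.1) w.1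
  have := ρ.mulL (s2 ++ w.1) h
  refine ρ.trans' ?_ (ρ.symm' (hρ _ _ h2))
  simpa only [List.append_assoc] using this

theorem er_ll (hθ : Bs S θ) {ρ : Pg S} (hρ : LeP θ ρ) (hcp : CP ρ) (hC : C.Nonempty) {a w : TT B C}
    (h : Er ρ.rev a.1.reverse w.1.reverse) : LL (cT ρ C) a w := by
  obtain ⟨h0, h1, ⟨p, hp⟩, q, hq⟩ := h
  have hp' : ρ.r (p.reverse ++ a.1) w.1 := by
    change ρ.r _ _ at hp
    simpa [List.reverse_append] using hp
  have hq' : ρ.r (q.reverse ++ w.1) a.1 := by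
    change ρ.r _ _ at hq
    simpa [List.reverse_append] using hq
  exact ⟨half' hθ hρ hcp hC hp', half' hθ hρ hcp hC hq'⟩

end

theorem hJ (hI : StI) : StJ := by
  intro B S θ m hθ hm hR hL α β hα hβ hcα hcβ u w v hu huw hwv
  have hC : (cn u).Nonempty := by
    rw [← Finset.card_pos]
    omega
  have hw : cn w = cn u := (hcα _ _ huw).symm
  have hv : cn v = cn u := (hcβ _ _ hwv).symm.trans hw
  obtain ⟨w', h1, h2⟩ := hI (TT B (cn u)) (cT θ (cn u)) (cT α (cn u)) (cT β (cn u))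
    (Con.le_def.2 fun {x y} h => hα _ _ h) (Con.le_def.2 fun {x y} h => hβ _ _ h)
    (hyp1 hθ hC) (hyp2 hθ hC)
    (by
      intro a w b h1 h2
      obtain ⟨w', h3, h4⟩ := hR α β hα hβ hcα hcβ a.1 w.1 b.1 (by rw [a.2]; exact hu)
        (rr_er α hC h1) (rr_er β hC h2)
      have hw' : cn w' = cn u := by rw [← h3.cn, a.2]
      exact ⟨⟨w', hw'⟩, er_rr hθ hβ hcβ hC h3, er_rr hθ hα hcα hC h4⟩)
    (by
      intro a w b h1 h2
      obtain ⟨w', h3, h4⟩ := hL α.rev β.rev hα.rev hβ.rev hcα.rev hcβ.rev a.1.reverse w.1.reverse b.1.reverse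
        (by rw [cn_reverse, a.2]; exact hu) (ll_er α hC h1) (ll_er β hC h2)
      have hw' : cn w'.reverse = cn u := by rw [cn_reverse, ← h3.cn, cn_reverse, a.2]
      refine ⟨⟨w'.reverse, hw'⟩, er_ll hθ hβ hcβ hC ?_, er_ll hθ hα hcα hC ?_⟩
      · simpa using h3
      · simpa using h4)
    ⟨u, rfl⟩ ⟨w, hw⟩ ⟨v, hv⟩ huw hwv
  exact ⟨w'.1, h1, h2⟩

end Pool.Agent.Helper76.CR
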